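import Mathlib
import Pool.Agent.Lib.MP_770c06_an.Defs
import Pool.Agent.Lib.MP_770c06_an.Access
import Pool.Agent.Lib.MP_770c06_an.Trap
import Pool.Agent.Lib.MP_770c06_an.N.Trap

open Pool.Agent.Lib.MP_770c06_an

/-- For every `n ≥ 3` there are, in `ℝⁿ`, a linearly accessible domain `D`, a point `x₀ ∈ D`, a
level `t > 0` and a point `y` outside `Ω_t = {x ∈ D : g(x, x₀) > t}` such that every ray from `y`
meets `Ω_t`. -/
theorem Pool.Agent.Results.MP_770c06_an.Counterexample.result : ∀ n : ℕ, 3 ≤ n →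
    ∃ (D : Set (EuclideanSpace ℝ (Fin n))) (x₀ : EuclideanSpace ℝ (Fin n))
      (g : EuclideanSpace ℝ (Fin n) → ENNReal) (t : ℝ) (y : EuclideanSpace ℝ (Fin n)),
      IsConnected D ∧ LinearlyAccessible D ∧ x₀ ∈ D ∧ IsGreenFunction D x₀ g ∧ 0 < t ∧
      y ∉ {x | x ∈ D ∧ ENNReal.ofReal t < g x} ∧
      ∀ v : EuclideanSpace ℝ (Fin n), ‖v‖ = 1 →
        ∃ s : ℝ, 0 ≤ s ∧ y + s • v ∈ {x | x ∈ D ∧ ENNReal.ofReal t < g x} := by
  intro n hn
  obtain ⟨M, rfl⟩ : ∃ M, n = M + 3 := ⟨n - 3, by omega⟩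
  rcases Nat.eq_zero_or_pos M with rfl | hM
  · exact ⟨Dom, pole, greenOf pole Hf, 3 / 20, ypt, Dom_connected, Dom_accessible, pole_mem,
      Dom_green, by norm_num, ypt_not_mem, trapped⟩
  · exact N.main hM
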